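import Mathlib

set_option autoImplicit false
set_option linter.unusedSectionVars false
set_option linter.style.haveILetI false

/-!
Sums of finite normed groups in the sense of `ℓ¹`: local minimality and an Erdős type argument.
-/

namespace Pool.Agent.H288Z.Erd

open Filter Topology

variable {F : ℕ → Type} [∀ k, NormedAddCommGroup (F k)]

theorem hasSum_norm (x : lp F 1) : HasSum (fun k => ‖x k‖) ‖x‖ := by
  simpa using lp.hasSum_norm (p := 1) (by simp) x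

theorem norm_add_disj (a b : lp F 1) (h : ∀ k, a k = 0 ∨ b k = 0) : ‖a + b‖ = ‖a‖ + ‖b‖ := by
  refine (hasSum_norm (a + b)).unique ?_
  convert (hasSum_norm a).add (hasSum_norm b) using 2 with k
  rw [lp.coeFn_add, Pi.add_apply]
  rcases h k with h | h <;> simp [h]

theorem norm_le_two (a b : lp F 1) (h : ∀ k, ‖a k‖ ≤ 2 * ‖b k‖) : ‖a‖ ≤ 2 * ‖b‖ :=
  hasSum_le h (hasSum_norm a) ((hasSum_norm b).mul_left 2)

/-- Truncation to the first `N` coordinates. -/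
noncomputable def tr (N : ℕ) (a : lp F 1) : lp F 1 := ∑ i ∈ Finset.range N, lp.single 1 i (a i)

theorem tr_apply (N : ℕ) (a : lp F 1) (k : ℕ) : tr N a k = if k < N then a k else 0 := by
  rw [tr, lp.coeFn_sum, Finset.sum_apply]
  simp only [lp.single_apply]
  rw [Finset.sum_pi_single]
  simp only [Finset.mem_range]

theorem tendsto_tr (a : lp F 1) : Tendsto (fun N => ‖a - tr N a‖) atTop (𝓝 0) := by
  have h := (lp.hasSum_single (p := 1) (by simp) a).tendsto_sum_nat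
  rw [tendsto_iff_norm_sub_tendsto_zero] at h
  simpa only [norm_sub_rev, tr] using h

theorem exists_hump (a : lp F 1) {η : ℝ} (hη : 0 < η) :
    ∃ N, ∀ d : lp F 1, (∀ k < N, d k = 0) → ‖a‖ + ‖d‖ - η ≤ ‖a + d‖ := by
  obtain ⟨N, hN⟩ := ((tendsto_tr a).eventually_lt_const (half_pos hη)).exists
  refine ⟨N, fun d hd => ?_⟩
  have h1 : ‖tr N a + d‖ = ‖tr N a‖ + ‖d‖ := norm_add_disj _ _ fun k => by
    by_cases hk : k < N
    · exact Or.inr (hd k hk)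
    · exact Or.inl (by rw [tr_apply, if_neg hk])
  have h2 := norm_sub_norm_le a (tr N a)
  have h3 := norm_sub_norm_le (tr N a + d) (a + d)
  rw [add_sub_add_right_eq_sub, norm_sub_rev] at h3
  linarith

theorem eq_of_filter {G : Type} [AddCommGroup G] [t : TopologicalSpace G]
    [ht : IsTopologicalAddGroup G] (V : Set G)
    (h : ∀ 𝓕 : Filter G, (∀ W ∈ 𝓕, ∃ W' ∈ 𝓕, ∀ a ∈ W', ∀ b ∈ W', ∀ c ∈ W', a + (b - c) ∈ W) →
      (∀ W ∈ 𝓕, (0 : G) ∈ W) → V ∈ 𝓕 →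
      (∀ (𝒰 : Ultrafilter G) (y : G), ↑𝒰 ≤ 𝓕 → ↑𝒰 ≤ 𝓝 y → y = 0) → 𝓕 ≤ 𝓝 0)
    (τ : TopologicalSpace G) (h1 : @IsTopologicalAddGroup G τ _) (h2 : @T2Space G τ)
    (h3 : t ≤ τ) (h4 : V ∈ @nhds _ τ 0) : τ = t := by
  refine IsTopologicalAddGroup.ext h1 ht (le_antisymm ?_ (nhds_mono h3))
  refine h _ (fun W hW => ?_) (fun W hW => mem_of_mem_nhds hW) h4
    fun 𝒰 y k1 k2 => t2_iff_ultrafilter.mp h2 𝒰 (k2.trans (nhds_mono h3)) k1
  have h5 : Tendsto (fun p : G × G × G => p.1 + (p.2.1 - p.2.2))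
      (𝓝 0 ×ˢ 𝓝 0 ×ˢ 𝓝 0) (𝓝 0) := by
    have h6 := (tendsto_fst (f := 𝓝 (0 : G)) (g := 𝓝 (0 : G) ×ˢ 𝓝 (0 : G))).add
      ((tendsto_fst.comp tendsto_snd).sub (tendsto_snd.comp tendsto_snd))
    simpa using h6
  obtain ⟨A, hA, B, hB, hAB⟩ := mem_prod_iff.mp (h5 hW)
  obtain ⟨C, hC, D, hD, hCD⟩ := mem_prod_iff.mp hB
  exact ⟨A ∩ C ∩ D, inter_mem (inter_mem hA hC) hD, fun a ha b hb c hc =>
    hAB (a := (a, b, c)) ⟨ha.1.1, hCD (a := (b, c)) ⟨hb.1.2, hc.2⟩⟩⟩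

theorem le_nhds_of_filter [∀ k, Finite (F k)] (𝓕 : Filter (lp F 1))
    (hadd : ∀ W ∈ 𝓕, ∃ W' ∈ 𝓕, ∀ a ∈ W', ∀ b ∈ W', ∀ c ∈ W', a + (b - c) ∈ W)
    (h0 : ∀ W ∈ 𝓕, (0 : lp F 1) ∈ W) (h4 : Metric.ball (0 : lp F 1) 1 ∈ 𝓕)
    (hsep : ∀ (𝒰 : Ultrafilter (lp F 1)) (y : lp F 1), ↑𝒰 ≤ 𝓕 → ↑𝒰 ≤ 𝓝 y → y = 0) :
    𝓕 ≤ 𝓝 0 := by
  rw [le_iff_ultrafilter]
  intro 𝒰 h𝒰
  have hC : Cauchy (𝒰 : Filter (lp F 1)) := by
    rw [Metric.cauchy_iff]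
    refine ⟨inferInstance, fun ε hε => ?_⟩
    by_contra hcon
    push Not at hcon
    choose y hy using fun k => (𝒰.map fun z : lp F 1 => z k).eq_pure_of_finite
    have hy' : ∀ k, {z : lp F 1 | z k = y k} ∈ 𝒰 := fun k => by
      have h5 : {y k} ∈ (𝒰.map fun z : lp F 1 => z k) := by
        rw [hy k]; exact rfl
      exact h5
    have h5 : ∀ r : ℕ, ∀ W ∈ 𝓕, ∃ s ∈ W, r * (ε / 2) ≤ ‖s‖ := by
      intro r
      induction r with
      | zero => exact fun W hW => ⟨0, h0 W hW, by simp⟩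
      | succ r ih =>
        intro W hW
        obtain ⟨W', hW', hW''⟩ := hadd W hW
        obtain ⟨s, hs1, hs2⟩ := ih W' hW'
        obtain ⟨N, hN⟩ := exists_hump s (half_pos hε)
        obtain ⟨z, hz, z', hz', hzz⟩ := hcon (W' ∩ ⋂ k ∈ Set.Iio N, {z : lp F 1 | z k = y k})
          (inter_mem (h𝒰 hW') ((biInter_mem (Set.finite_Iio N)).mpr fun k _ => hy' k))
        refine ⟨s + (z - z'), hW'' s hs1 z hz.1 z' hz'.1, ?_⟩
        have h6 := hN (z - z') fun k hk => by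
          have h7 : z k = y k := Set.mem_iInter₂.mp hz.2 k hk
          have h8 : z' k = y k := Set.mem_iInter₂.mp hz'.2 k hk
          rw [lp.coeFn_sub, Pi.sub_apply, h7, h8, sub_self]
        rw [dist_eq_norm] at hzz
        push_cast
        linarith
    obtain ⟨r, hr⟩ := exists_nat_gt (1 / (ε / 2))
    obtain ⟨s, hs1, hs2⟩ := h5 r _ h4
    rw [mem_ball_zero_iff] at hs1
    rw [div_lt_iff₀ (half_pos hε)] at hr
    linarith
  haveI : ∀ k, CompleteSpace (F k) := fun k => complete_of_compact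
  obtain ⟨y, hy⟩ := CompleteSpace.complete hC
  rwa [hsep 𝒰 y h𝒰 hy] at hy

theorem not_clopen [∀ k, CompleteSpace (F k)] (H : AddSubgroup (lp F 1))
    (hH : IsClosed (H : Set (lp F 1)))
    (h : ∀ ε > 0, ∃ c > 0, ∀ N, ∃ d ∈ H, (∀ k < N, d k = 0) ∧ c ≤ ‖d‖ ∧ ‖d‖ ≤ ε)
    (U : Set H) (hU : IsClopen U) (h0 : (0 : H) ∈ U) (hb : ∀ x ∈ U, ‖x‖ ≤ 1) : False := by
  haveI : CompleteSpace H := hH.completeSpace_coe
  have h1 : ∀ x : U, ∃ y : U, ‖y.1 - x.1‖ ≤ 2 * (‖y.1‖ - ‖x.1‖) ∧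
      ∀ z ∈ U, ‖z - x.1‖ ≤ 2 * (‖z‖ - ‖x.1‖) → ‖z‖ - ‖x.1‖ ≤ 2 * (‖y.1‖ - ‖x.1‖) := by
    intro x
    let S : Set ℝ := (fun z : H => ‖z‖ - ‖x.1‖) '' {z ∈ U | ‖z - x.1‖ ≤ 2 * (‖z‖ - ‖x.1‖)}
    have hS1 : S.Nonempty := ⟨_, x.1, ⟨x.2, by simp⟩, rfl⟩
    have hS2 : BddAbove S := ⟨1, by
      rintro _ ⟨z, hz, rfl⟩
      have := hb z hz.1
      have := norm_nonneg x.1
      show ‖z‖ - ‖x.1‖ ≤ 1
      linarith⟩
    by_cases hs : sSup S ≤ 0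
    · refine ⟨x, by simp, fun z hz hz' => ?_⟩
      have := le_csSup hS2 ⟨z, ⟨hz, hz'⟩, rfl⟩
      rw [sub_self, mul_zero]
      exact this.trans hs
    · obtain ⟨_, ⟨y, hy, rfl⟩, hy'⟩ := exists_lt_of_lt_csSup hS1 (half_lt_self (not_le.mp hs))
      refine ⟨⟨y, hy.1⟩, hy.2, fun z hz hz' => ?_⟩
      have : ‖z‖ - ‖x.1‖ ≤ sSup S := le_csSup hS2 ⟨z, ⟨hz, hz'⟩, rfl⟩
      have h2 : sSup S / 2 < ‖y‖ - ‖x.1‖ := hy'
      show ‖z‖ - ‖x.1‖ ≤ 2 * (‖y‖ - ‖x.1‖)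
      linarith
  choose g hg using h1
  let x : ℕ → U := fun n => g^[n] ⟨0, h0⟩
  have hx : ∀ n, x (n + 1) = g (x n) := fun n => Function.iterate_succ_apply' g n _
  have h2 : ∀ n, ‖(x (n + 1)).1 - (x n).1‖ ≤ 2 * (‖(x (n + 1)).1‖ - ‖(x n).1‖) := fun n => by
    rw [hx]; exact (hg _).1
  have h3 : Summable fun n => 2 * (‖(x (n + 1)).1‖ - ‖(x n).1‖) := by
    refine summable_of_sum_range_le (c := 2) (fun n => (norm_nonneg _).trans (h2 n)) fun n => ?_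
    rw [← Finset.mul_sum, Finset.sum_range_sub (fun n => ‖(x n).1‖)]
    have := hb _ (x n).2
    have := norm_nonneg (x 0).1
    linarith
  obtain ⟨a, ha⟩ := cauchySeq_tendsto_of_complete (cauchySeq_of_dist_le_of_summable
    (f := fun n => (x n).1) _ (fun n => by rw [dist_comm, dist_eq_norm]; exact h2 n) h3)
  have haU : a ∈ U := hU.isClosed.mem_of_tendsto ha (Eventually.of_forall fun n => (x n).2)
  obtain ⟨ε, hε, hεU⟩ := Metric.isOpen_iff.mp hU.isOpen a haU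
  obtain ⟨c, hc, hcd⟩ := h (ε / 2) (half_pos hε)
  obtain ⟨n, hn1, hn2⟩ := ((Metric.tendsto_nhds.mp ha _ (half_pos hε)).and
    (h3.tendsto_atTop_zero.eventually_lt_const (half_pos hc))).exists
  obtain ⟨N, hN⟩ := exists_hump (x n).1.1 (half_pos hc)
  obtain ⟨d, hd1, hd2, hd3, hd4⟩ := hcd N
  have h4 : ‖(x n).1‖ + ‖d‖ - c / 2 ≤ ‖(x n).1 + ⟨d, hd1⟩‖ := hN d hd2
  have h5 : (x n).1 + ⟨d, hd1⟩ ∈ U := by
    apply hεU
    have h6 := dist_triangle ((x n).1 + ⟨d, hd1⟩) (x n).1 a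
    rw [dist_self_add_left] at h6
    have h7 : ‖(⟨d, hd1⟩ : H)‖ = ‖d‖ := rfl
    rw [Metric.mem_ball]
    linarith
  have h6 := (hg (x n)).2 _ h5 (by
    rw [add_sub_cancel_left]
    show ‖d‖ ≤ _
    linarith)
  rw [← hx] at h6
  linarith

theorem not_locallyCompact
    (h : ∀ ε > 0, ∃ c > 0, ∀ N, ∃ d : lp F 1, (∀ k < N, d k = 0) ∧ c ≤ ‖d‖ ∧ ‖d‖ ≤ ε)
    {K : Set (lp F 1)} (hK : IsCompact K) (h0 : K ∈ 𝓝 0) : False := by
  obtain ⟨ε, hε, hεK⟩ := Metric.nhds_basis_closedBall.mem_iff.mp h0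
  obtain ⟨c, hc, hcd⟩ := h ε hε
  choose d hd using hcd
  obtain ⟨a, -, φ, hφ, ha⟩ := hK.tendsto_subseq (x := d)
    fun n => hεK (mem_closedBall_zero_iff.mpr (hd n).2.2)
  have h1 : a = 0 := lp.ext (funext fun k => by
    refine tendsto_nhds_unique (((lp.lipschitzWith_one_eval 1 k).continuous.tendsto a).comp ha)
      (tendsto_const_nhds.congr' ?_)
    filter_upwards [eventually_gt_atTop k] with n hn
    exact ((hd (φ n)).1 k (hn.trans_le hφ.le_apply)).symm)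
  have h2 := ge_of_tendsto' ha.norm fun n => (hd (φ n)).2.1
  rw [h1, norm_zero] at h2
  linarith

end Pool.Agent.H288Z.Erd
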