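import Pool.Agent.H288Z.Erd.L1

set_option autoImplicit false
set_option linter.unusedSectionVars false
set_option linter.style.haveILetI false

/-!
An `ℓ¹`-sum of cyclic groups of rapidly growing prime orders with slowly varying norms.
-/

namespace Pool.Agent.H288Z.Erd

open Filter Topology

/-- Some prime that is at least `n`. -/
noncomputable def nextPrime (n : ℕ) : ℕ := Classical.choose (Nat.exists_infinite_primes n)

/-- The product of the first `k` chosen primes. -/
noncomputable def Q : ℕ → ℕ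
  | 0 => 1
  | k + 1 => Q k * nextPrime ((Q k + 1) ^ (Q k + 1))

/-- The chosen primes. -/
noncomputable def q (k : ℕ) : ℕ := nextPrime ((Q k + 1) ^ (Q k + 1))

theorem q_prime (k : ℕ) : (q k).Prime := (Classical.choose_spec (Nat.exists_infinite_primes _)).2

theorem le_q (k : ℕ) : (Q k + 1) ^ (Q k + 1) ≤ q k :=
  (Classical.choose_spec (Nat.exists_infinite_primes _)).1

theorem Q_succ (k : ℕ) : Q (k + 1) = Q k * q k := rfl

theorem Q_eq (k : ℕ) : Q k = ∏ j ∈ Finset.range k, q j := by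
  induction k with
  | zero => rfl
  | succ k ih => rw [Finset.prod_range_succ, ← ih, Q_succ]

theorem le_Q (k : ℕ) : k + 1 ≤ Q k := by
  induction k with
  | zero => exact le_rfl
  | succ k ih =>
    have := (q_prime k).two_le
    rw [Q_succ]
    nlinarith

theorem Q_mono : Monotone Q := monotone_nat_of_le_succ fun k => by
  rw [Q_succ]
  exact Nat.le_mul_of_pos_right _ (q_prime k).pos

theorem q_strictMono : StrictMono q := strictMono_nat_of_lt_succ fun k => by
  have h1 : q k ≤ Q (k + 1) := by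
    rw [Q_succ]
    exact Nat.le_mul_of_pos_left _ ((Nat.succ_pos k).trans_le (le_Q k))
  have h2 : Q (k + 1) + 1 ≤ (Q (k + 1) + 1) ^ (Q (k + 1) + 1) :=
    Nat.le_self_pow (Nat.succ_ne_zero _) _
  have h3 := le_q (k + 1)
  omega

instance (k : ℕ) : Fact (q k).Prime := ⟨q_prime k⟩

/-- The cyclic group of order `q k`. -/
def F (k : ℕ) : Type := ZMod (q k)

noncomputable instance (k : ℕ) : AddCommGroup (F k) := inferInstanceAs (AddCommGroup (ZMod (q k)))

instance (k : ℕ) : Finite (F k) := inferInstanceAs (Finite (ZMod (q k)))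

/-- The exponent of the norm. -/
noncomputable def ex (k : ℕ) : ℝ := ((Q k + 1 : ℕ) : ℝ)⁻¹

theorem ex_pos (k : ℕ) : 0 < ex k := inv_pos.mpr (Nat.cast_pos.mpr (Nat.succ_pos _))

theorem ex_le (k : ℕ) : ex k ≤ 1 :=
  inv_le_one_of_one_le₀ (Nat.one_le_cast.mpr (Nat.succ_pos _))

/-- The embedding in the circle. -/
noncomputable def emb (k : ℕ) : F k →+ UnitAddCircle := ZMod.toAddCircle (N := q k)

noncomputable instance (k : ℕ) : NormedAddCommGroup (F k) :=
  AddGroupNorm.toNormedAddCommGroup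
    { toFun := fun a => ‖emb k a‖ ^ ex k
      map_zero' := by rw [map_zero, norm_zero, Real.zero_rpow (ex_pos k).ne']
      add_le' := fun a b => by
        rw [map_add]
        exact (Real.rpow_le_rpow (norm_nonneg _) (norm_add_le _ _) (ex_pos k).le).trans
          (Real.rpow_add_le_add_rpow (norm_nonneg _) (norm_nonneg _) (ex_pos k).le (ex_le k))
      neg' := fun a => by rw [map_neg, norm_neg]
      eq_zero_of_map_eq_zero' := fun a ha => by
        rw [Real.rpow_eq_zero (norm_nonneg _) (ex_pos k).ne', norm_eq_zero] at ha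
        exact ZMod.toAddCircle_eq_zero.mp ha }

theorem norm_def (k : ℕ) (a : F k) : ‖a‖ = ‖emb k a‖ ^ ex k := rfl

theorem norm_nsmul_le_two {k m : ℕ} (hm : m ≤ Q k) (a : F k) : ‖m • a‖ ≤ 2 * ‖a‖ := by
  rw [norm_def, norm_def, map_nsmul]
  refine (Real.rpow_le_rpow (norm_nonneg _) (norm_nsmul_le) (ex_pos k).le).trans ?_
  rw [Real.mul_rpow (Nat.cast_nonneg m) (norm_nonneg _)]
  refine mul_le_mul_of_nonneg_right ?_ (Real.rpow_nonneg (norm_nonneg _) _)
  have h1 : (m : ℝ) ≤ 2 ^ (Q k + 1) := by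
    have := (Nat.lt_two_pow_self (n := Q k + 1)).le
    exact_mod_cast (by omega : m ≤ 2 ^ (Q k + 1))
  refine (Real.rpow_le_rpow (Nat.cast_nonneg m) h1 (ex_pos k).le).trans ?_
  rw [ex, Real.pow_rpow_inv_natCast (by norm_num) (Nat.succ_ne_zero _)]

theorem q_smul (k : ℕ) (a : F k) : q k • a = 0 := by
  have h : ∀ b : ZMod (q k), q k • b = 0 := fun b => by
    rw [nsmul_eq_mul, ZMod.natCast_self, zero_mul]
  exact h a

theorem exists_inv (k n : ℕ) (hn : ¬ q k ∣ n) : ∃ u < q k, ∀ a : F k, (u * n) • a = a := by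
  have h : ∀ a : ZMod (q k), (((n : ZMod (q k))⁻¹).val * n) • a = a := fun a => by
    rw [nsmul_eq_mul, Nat.cast_mul, ZMod.natCast_zmod_val,
      inv_mul_cancel₀ ((ZMod.natCast_eq_zero_iff _ _).not.mpr hn), one_mul]
  exact ⟨_, ZMod.val_lt _, h⟩

theorem exists_gen (k : ℕ) (a b : F k) (ha : a ≠ 0) : ∃ m : ℕ, b = m • a := by
  have h : ∀ a b : ZMod (q k), a ≠ 0 → ∃ m : ℕ, b = m • a := fun a b ha =>
    ⟨(b * a⁻¹).val, by rw [nsmul_eq_mul, ZMod.natCast_zmod_val, inv_mul_cancel_right₀ ha]⟩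
  exact h a b ha

theorem norm_emb_nat (k j : ℕ) (hj : 2 * j ≤ q k) :
    ‖emb k ((j : ZMod (q k)) : F k)‖ = j / q k := by
  have h0 : (0 : ℝ) < q k := Nat.cast_pos.mpr (q_prime k).pos
  have h1 : emb k ((j : ZMod (q k)) : F k) = ((j / q k : ℝ) : UnitAddCircle) :=
    ZMod.toAddCircle_natCast j
  have h2 : |(j / q k : ℝ)| = j / q k := abs_of_nonneg (by positivity)
  rw [h1, (AddCircle.norm_coe_eq_abs_iff 1 one_ne_zero).mpr, h2]
  rw [h2, abs_one, div_le_div_iff₀ h0 two_pos]
  exact_mod_cast (by omega : j * 2 ≤ 1 * q k)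

theorem exists_scale {ε : ℝ} (hε : 0 < ε) :
    ∃ c > 0, ∀ᶠ k in atTop, ∃ b : F k, c ≤ ‖b‖ ∧ ‖b‖ ≤ ε := by
  refine ⟨min (ε / 2) (1 / 4), lt_min (half_pos hε) (by norm_num), ?_⟩
  obtain ⟨N, hN⟩ := exists_nat_one_div_lt (half_pos hε)
  filter_upwards [eventually_ge_atTop N] with k hk
  have h0 : (0 : ℝ) < q k := Nat.cast_pos.mpr (q_prime k).pos
  have hq := (q_prime k).two_le
  let e : ℕ → F k := fun j => (j : ZMod (q k))
  have h1 : ‖e 1‖ ≤ ε / 2 := by
    rw [norm_def, norm_emb_nat k 1 (by omega)]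
    have h2 : ((1 : ℕ) / q k : ℝ) ≤ (((Q k + 1 : ℕ) : ℝ)⁻¹) ^ (Q k + 1) := by
      rw [inv_pow, Nat.cast_one, one_div]
      exact inv_anti₀ (by positivity) (by exact_mod_cast le_q k)
    refine (Real.rpow_le_rpow (by positivity) h2 (ex_pos k).le).trans ?_
    rw [ex, Real.pow_rpow_inv_natCast (by positivity) (Nat.succ_ne_zero _)]
    refine le_trans ?_ hN.le
    rw [one_div]
    have h3 := le_Q k
    exact inv_anti₀ (by positivity) (by exact_mod_cast (by omega : N + 1 ≤ Q k + 1))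
  have h2 : ∃ j, min (ε / 2) (1 / 4) ≤ ‖e j‖ := by
    refine ⟨q k / 2, (min_le_right _ _).trans ?_⟩
    rw [norm_def, norm_emb_nat k _ (by omega)]
    have h3 : (1 / 4 : ℝ) ≤ (q k / 2 : ℕ) / q k := by
      rw [div_le_div_iff₀ (by norm_num) h0]
      exact_mod_cast (by omega : 1 * q k ≤ q k / 2 * 4)
    refine le_trans ?_ (Real.rpow_le_rpow (by norm_num) h3 (ex_pos k).le)
    exact Real.self_le_rpow_of_le_one (by norm_num) (by norm_num) (ex_le k)
  classical
  refine ⟨e (Nat.find h2), Nat.find_spec h2, ?_⟩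
  rcases h3 : Nat.find h2 with _ | j
  · have h4 : e 0 = 0 := Nat.cast_zero (R := ZMod (q k))
    rw [h4, norm_zero]
    exact hε.le
  · have h4 := Nat.find_min h2 (m := j) (by omega)
    have h5 : e (j + 1) = e j + e 1 := Nat.cast_add (R := ZMod (q k)) j 1
    have h6 := norm_add_le (e j) (e 1)
    have h7 := min_le_left (ε / 2) (1 / 4)
    rw [h5]
    linarith [not_le.mp h4]

theorem single_mem (H : AddSubgroup (lp F 1)) (hH : IsClosed (H : Set (lp F 1))) {x : lp F 1}
    (hx : x ∈ H) (k : ℕ) : lp.single 1 k (x k) ∈ H := by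
  have h1 : ∀ R, k < R → ∃ y ∈ H, ‖y - lp.single 1 k (x k)‖ ≤ 2 * ‖x - tr R x‖ := by
    intro R hR
    let n := ∏ j ∈ (Finset.range R).erase k, q j
    have hn : q k * n = Q R := by
      rw [Q_eq]
      exact Finset.mul_prod_erase _ _ (Finset.mem_range.mpr hR)
    obtain ⟨u, hu1, hu2⟩ := exists_inv k n fun h => by
      obtain ⟨j, hj1, hj2⟩ := (Prime.dvd_finsetProd_iff (q_prime k).prime _).mp h
      exact (Finset.mem_erase.mp hj1).1 (q_strictMono.injective
        ((Nat.prime_dvd_prime_iff_eq (q_prime k) (q_prime j)).mp hj2)).symm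
    refine ⟨(u * n) • x, H.nsmul_mem hx _, norm_le_two _ _ fun j => ?_⟩
    have h2 : ((u * n) • x - lp.single 1 k (x k)) j = (u * n) • x j - lp.single 1 k (x k) j := rfl
    rw [h2, lp.coeFn_sub, Pi.sub_apply, tr_apply]
    by_cases hjk : j = k
    · subst hjk
      rw [lp.single_apply_self, hu2, sub_self, norm_zero]
      positivity
    rw [lp.single_apply_ne _ _ _ hjk, sub_zero]
    by_cases hj : j < R
    · obtain ⟨c, hc⟩ : q j ∣ n :=
        Finset.dvd_prod_of_mem _ (Finset.mem_erase.mpr ⟨hjk, Finset.mem_range.mpr hj⟩)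
      rw [hc, mul_comm (q j), ← mul_assoc, mul_smul, q_smul, smul_zero, norm_zero]
      positivity
    · rw [if_neg hj, sub_zero]
      refine norm_nsmul_le_two (le_trans ?_ (Q_mono (not_lt.mp hj))) _
      rw [← hn]
      exact Nat.mul_le_mul_right _ hu1.le
  refine hH.closure_subset (Metric.mem_closure_iff.mpr fun ε hε => ?_)
  obtain ⟨R, hR1, hR2⟩ := ((eventually_gt_atTop k).and
    ((tendsto_tr x).eventually_lt_const (half_pos hε))).exists
  obtain ⟨y, hy1, hy2⟩ := h1 R hR1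
  refine ⟨y, hy1, ?_⟩
  rw [dist_comm, dist_eq_norm]
  linarith

theorem humps (H : AddSubgroup (lp F 1)) (hH : IsClosed (H : Set (lp F 1)))
    (hinf : (H : Set (lp F 1)).Infinite) :
    ∀ ε > 0, ∃ c > 0, ∀ N, ∃ d ∈ H, (∀ k < N, d k = 0) ∧ c ≤ ‖d‖ ∧ ‖d‖ ≤ ε := by
  intro ε hε
  obtain ⟨c, hc, h1⟩ := exists_scale hε
  refine ⟨c, hc, fun N => ?_⟩
  have h2 : ∃ᶠ k in atTop, ∃ x ∈ H, x k ≠ 0 := by
    by_contra hcon
    rw [not_frequently, eventually_atTop] at hcon
    obtain ⟨M, hM⟩ := hcon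
    refine hinf (Set.Finite.of_finite_image
      (f := fun (x : lp F 1) (k : Fin M) => x k) (Set.toFinite _) fun x hx y hy hxy => ?_)
    refine lp.ext (funext fun k => ?_)
    by_cases hk : k < M
    · exact congrFun hxy ⟨k, hk⟩
    · have h3 := hM k (not_lt.mp hk)
      push Not at h3
      rw [h3 x hx, h3 y hy]
  obtain ⟨k, ⟨x, hx, hxk⟩, ⟨b, hb⟩, hk⟩ :=
    (h2.and_eventually (h1.and (eventually_ge_atTop N))).exists
  obtain ⟨m, hm⟩ := exists_gen k (x k) b hxk
  refine ⟨lp.single 1 k b, ?_, fun j hj => lp.single_apply_ne _ _ _ (by omega), ?_⟩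
  · have h3 := H.nsmul_mem (single_mem H hH hx k) m
    rwa [← lp.singleAddMonoidHom_apply, ← map_nsmul, ← hm] at h3
  · rwa [lp.norm_single one_pos]

theorem infinite_lp : Infinite (lp F 1) := by
  let e : ∀ k, F k := fun k => (1 : ZMod (q k))
  refine Infinite.of_injective (fun k => lp.single (E := F) 1 k (e k)) fun j k h => ?_
  by_contra hne
  have h1 : lp.single (E := F) 1 j (e j) j = lp.single (E := F) 1 k (e k) j :=
    congrArg (fun x : lp F 1 => x j) h
  rw [lp.single_apply_self, lp.single_apply_ne _ _ _ hne] at h1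
  exact one_ne_zero (α := ZMod (q j)) h1

theorem finite_of_zeroDim (H : AddSubgroup (lp F 1)) (hH : IsClosed (H : Set (lp F 1)))
    (h : TopologicalSpace.IsTopologicalBasis {s : Set H | IsClopen s}) : Finite H := by
  by_contra hcon
  haveI : ∀ k, CompleteSpace (F k) := fun k => complete_of_compact
  obtain ⟨U, hU1, hU2, hU3⟩ := h.exists_subset_of_mem_open
    (Metric.mem_ball_self (x := (0 : H)) one_pos) Metric.isOpen_ball
  exact not_clopen H hH (humps H hH fun h => hcon h.to_subtype) U hU1 hU2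
    fun x hx => (mem_ball_zero_iff.mp (hU3 hx)).le

theorem not_compact {K : Set (lp F 1)} (hK : IsCompact K) (h0 : K ∈ 𝓝 0) : False := by
  haveI := infinite_lp
  refine not_locallyCompact (fun ε hε => ?_) hK h0
  obtain ⟨c, hc, h⟩ := humps ⊤ (by simp) (by simpa using Set.infinite_univ) ε hε
  exact ⟨c, hc, fun N => (h N).imp fun d hd => hd.2⟩

end Pool.Agent.H288Z.Erd
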